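import Pool.Agent.Q119.KR.Main

/-!
# Kneser graphs `KG(αk,k)` with `α > n` are edge Ramsey for `K_n`

Full (positive) answer to Q1 of MP_90c2fd_co.

Outline of the proof.  It is enough to find one Kneser graph `KG(N,K)` with `N < αK` all of whose
edge colourings with `c` colours contain a monochromatic `K_n`; larger `k` follow by blowing up.

* (`Q119.KR.typ`) For a colouring of the pairs of sets over a fine ground set there is a coarsening
  into few blocks which is typical: given some coarse sets and prescribed colours to them, the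
  least number of points one has to delete from a region in order to destroy all sets with the
  prescribed colours is nearly the same for all coarse regions of the same size which avoid the
  given sets.  This is a variance argument, with one random permutation in every column.
* (`Q119.KR.exists_ladder`) Typical coarsenings are iterated.
* (`Q119.KR.process`) Given a sequence of regions `x_1, ..., x_J` and a last region `P'`, going
  down the ladder one finds sets `E_j` inside `x_j`, colours `q_j` and a last set `Z` inside `P'`,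
  such that `E_i` has colour `q_i` to `Z` and to all `E_j` with `j > i` whose region is disjoint
  from the region `x_i`.  The colour `q_j` is chosen by the pigeonhole principle on the levels of
  the ladder, since deletion numbers are subadditive.
* (`Q119.KR.main_finite`) The regions run many times through all possible positions in a part of
  relative size slightly more than `n - 1`; two layers of positions are coloured by the `q_j` in
  the same way, and (`Q119.KR.vr`) every colouring of the positions contains `n - 1` disjoint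
  positions of one colour; taken in increasing layers they give the clique, together with `Z`.
-/

set_option autoImplicit false

open Finset

namespace Pool.Agent.Results.MP_90c2fd_co.KneserEdgeRamsey

/-- The Kneser graph `KG(m,k)`: its vertices are the `k`-element subsets of a set with `m`
elements, and two different vertices are adjacent when they are disjoint. -/
def KG (m k : ℕ) : SimpleGraph {A : Finset (Fin m) // A.card = k} where
  Adj A B := A ≠ B ∧ Disjoint A.1 B.1
  symm := ⟨fun _ _ h => ⟨h.1.symm, h.2.symm⟩⟩
  loopless := ⟨fun _ h => h.1 rfl⟩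

/-- For all numbers of colours `c ≥ 2`, all `n ≥ 2` and all rational `α > n` there is `k₀` such
that for all `k ≥ k₀` for which `m = αk` is an integer, every colouring of the edges of `KG(m,k)`
with `c` colours contains a monochromatic `K_n`. -/
theorem result : ∀ c n : ℕ, 2 ≤ c → 2 ≤ n → ∀ α : ℚ, (n : ℚ) < α →
    ∃ k₀ : ℕ, ∀ k m : ℕ, k₀ ≤ k → (m : ℚ) = α * k →
      ∀ χ : (KG m k).edgeSet → Fin c,
        ∃ (i : Fin c) (s : Finset {A : Finset (Fin m) // A.card = k}),
          (KG m k).IsNClique n s ∧
          ∀ A ∈ s, ∀ B ∈ s, ∀ h : (KG m k).Adj A B,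
            χ ⟨s(A, B), (KG m k).mem_edgeSet.mpr h⟩ = i := by
  classical
  intro c n hc hn α hα
  obtain ⟨r, rfl⟩ : ∃ r, n = r + 1 := ⟨n - 1, by omega⟩
  obtain ⟨N, K, hK, hNK, hmain⟩ := Pool.Agent.Q119.KR.main_finite c r (by omega) (by omega) α
    (by push_cast at hα; exact hα)
  have hgap : (0 : ℚ) < α * K - N := by linarith
  obtain ⟨k₁, hk₁⟩ := exists_nat_gt ((N : ℚ) * K / (α * K - N))
  rw [div_lt_iff₀ hgap] at hk₁
  refine ⟨max k₁ 1, fun k m hk hm χ => ?_⟩
  have hk1 : 1 ≤ k := le_trans (le_max_right _ _) hk
  have hkk₁ : k₁ ≤ k := le_trans (le_max_left _ _) hk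
  -- size of the blocks
  obtain ⟨β, hβ1, hβ2⟩ : ∃ β : ℕ, k ≤ K * β ∧ K * β < k + K := by
    refine ⟨(k + K - 1) / K, ?_, ?_⟩
    · have h1 := Nat.div_add_mod (k + K - 1) K
      have h2 := Nat.mod_lt (k + K - 1) (show 0 < K by omega)
      omega
    · have h1 := Nat.div_add_mod (k + K - 1) K
      omega
  have hNβ : N * β ≤ m := by
    have hKq : (0 : ℚ) < K := by exact_mod_cast hK
    have h1 : ((N * β : ℕ) : ℚ) * K ≤ m * K := by
      have h2 : (K : ℚ) * β ≤ k + K := by exact_mod_cast hβ2.le
      have h3 : (0 : ℚ) ≤ N := by positivity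
      have h4 : (k₁ : ℚ) ≤ k := by exact_mod_cast hkk₁
      have h5 : (N : ℚ) * K < k * (α * K - N) :=
        lt_of_lt_of_le hk₁ (mul_le_mul_of_nonneg_right h4 hgap.le)
      rw [hm]
      push_cast
      calc (N : ℚ) * β * K = N * (K * β) := by ring
        _ ≤ N * (k + K) := mul_le_mul_of_nonneg_left h2 h3
        _ = N * k + N * K := by ring
        _ ≤ α * k * K := by linarith [h5]
    have h2 := le_of_mul_le_mul_right h1 hKq
    exact_mod_cast h2
  obtain ⟨φ⟩ : Nonempty (Fin N × Fin β ↪ Fin m) :=
    Function.Embedding.nonempty_of_card_le (by simpa using hNβ)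
  let big : Finset (Fin N) → Finset (Fin m) := fun A => (A ×ˢ (univ : Finset (Fin β))).map φ
  have hbig : ∀ A, (big A).card = A.card * β := fun A => by
    simp [big, Finset.card_product]
  have hbd : ∀ A B, Disjoint A B → Disjoint (big A) (big B) := by
    intro A B hAB
    rw [Finset.disjoint_map, Finset.disjoint_product]
    exact Or.inl hAB
  have hg : ∀ A : Finset (Fin N), ∃ D : Finset (Fin m), D ⊆ big A ∧ (A.card = K → D.card = k) := by
    intro A
    by_cases hA : A.card = K
    · obtain ⟨D, hD, hDc⟩ := Finset.exists_subset_card_eq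
        (show k ≤ (big A).card by rw [hbig, hA]; exact hβ1)
      exact ⟨D, hD, fun _ => hDc⟩
    · exact ⟨∅, Finset.empty_subset _, fun h => absurd h hA⟩
  choose g hgs hgc using hg
  have hc0 : 0 < c := by omega
  let χ' : Finset (Fin N) → Finset (Fin N) → Fin c := fun A B =>
    if h : ∃ (hA : (g A).card = k) (hB : (g B).card = k),
        (KG m k).Adj ⟨g A, hA⟩ ⟨g B, hB⟩ then
      χ ⟨s(⟨g A, h.choose⟩, ⟨g B, h.choose_spec.choose⟩),
        (KG m k).mem_edgeSet.mpr h.choose_spec.choose_spec⟩
    else ⟨0, hc0⟩
  obtain ⟨i, C, hCc, hC⟩ := hmain (Fin N) (by simp) χ'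
  let v : Fin (r + 1) → {A : Finset (Fin m) // A.card = k} := fun u => ⟨g (C u), hgc _ (hCc u)⟩
  have hdis : ∀ u w, u < w → Disjoint (v u).1 (v w).1 := fun u w huw =>
    Finset.disjoint_of_subset_left (hgs _)
      (Finset.disjoint_of_subset_right (hgs _) (hbd _ _ (hC u w huw).1))
  have hdis' : ∀ u w, u ≠ w → Disjoint (v u).1 (v w).1 := by
    intro u w huw
    rcases lt_or_gt_of_ne huw with h | h
    · exact hdis u w h
    · exact (hdis w u h).symm
  have hvne : ∀ u w, u ≠ w → v u ≠ v w := by
    intro u w huw he
    have h1 := hdis' u w huw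
    rw [he, Finset.disjoint_self_iff_empty] at h1
    have h2 := (v w).2
    rw [h1, Finset.card_empty] at h2
    omega
  have hinj : Function.Injective v := by
    intro u w h
    by_contra hne
    exact hvne u w hne h
  have hadj : ∀ u w, u ≠ w → (KG m k).Adj (v u) (v w) := fun u w huw =>
    ⟨hvne u w huw, hdis' u w huw⟩
  have hcol : ∀ u w, u < w → ∀ h : (KG m k).Adj (v u) (v w),
      χ ⟨s(v u, v w), (KG m k).mem_edgeSet.mpr h⟩ = i := by
    intro u w huw h
    have h1 := (hC u w huw).2
    have h2 : ∃ (hA : (g (C u)).card = k) (hB : (g (C w)).card = k),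
        (KG m k).Adj ⟨g (C u), hA⟩ ⟨g (C w), hB⟩ := ⟨hgc _ (hCc u), hgc _ (hCc w), h⟩
    simp only [χ', dif_pos h2] at h1
    exact h1
  refine ⟨i, univ.image v, ?_, ?_⟩
  · rw [SimpleGraph.isNClique_iff]
    refine ⟨?_, ?_⟩
    · intro A hA B hB hAB
      simp only [Finset.coe_image, Finset.coe_univ, Set.image_univ, Set.mem_range] at hA hB
      obtain ⟨u, rfl⟩ := hA
      obtain ⟨w, rfl⟩ := hB
      exact hadj u w (fun h => hAB (by rw [h]))
    · rw [Finset.card_image_of_injective _ hinj, Finset.card_univ, Fintype.card_fin]
  · intro A hA B hB h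
    simp only [Finset.mem_image, Finset.mem_univ, true_and] at hA hB
    obtain ⟨u, rfl⟩ := hA
    obtain ⟨w, rfl⟩ := hB
    have huw : u ≠ w := fun he => h.1 (by rw [he])
    rcases lt_or_gt_of_ne huw with hlt | hlt
    · exact hcol u w hlt h
    · have h1 := hcol w u hlt h.symm
      rw [← h1]
      congr 1
      exact Subtype.ext Sym2.eq_swap

end Pool.Agent.Results.MP_90c2fd_co.KneserEdgeRamsey
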